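import Mathlib
import Pool.Agent.H755R4.Main
import Pool.Agent.H755R4.SU1

/-!
Pillai's equation `x ^ n - y ^ m = c` with coprime `x`, `y`: the base carrying the smaller exponent
avoids almost all integers, for each `c ≤ N`, all exponents at once.
-/

namespace Pool.Agent.Results.MP_40586e_nt.LargerBase

open Filter Topology Pool.Agent.H755R4 Pool.Agent.H374R2

/-- `v` is the base carrying the smaller exponent in an admissible solution of `x ^ n - y ^ m = c`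
with coprime `x`, `y` -/
def Occur (c v : ℕ) : Prop := ∃ x y m n : ℕ, 2 ≤ x ∧ 2 ≤ y ∧ 2 ≤ m ∧ 2 ≤ n ∧
  Nat.Coprime x y ∧ x ^ n = y ^ m + c ∧ ((n < m ∧ v = x) ∨ (m < n ∧ v = y))

theorem root_bound {N Z t k l : ℕ} (hN : 1 ≤ N) (hlk : l < k) (hkZ : k ≤ Z)
    (h : t ^ k ≤ 2 * N ^ l) : (t : ℝ) ≤ 2 * (N : ℝ) ^ (1 - 1 / (Z : ℝ)) := by
  have hNR : (1 : ℝ) ≤ N := by exact_mod_cast hN
  have hN0 : (0 : ℝ) < N := by linarith
  have hk0 : 0 < k := by omega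
  have hkR : (0 : ℝ) < k := by exact_mod_cast hk0
  have h1 : t ^ k ≤ 2 ^ k * N ^ l :=
    h.trans (Nat.mul_le_mul_right _ (Nat.le_self_pow hk0.ne' 2))
  have h2 : (t : ℝ) ^ k ≤ 2 ^ k * (N : ℝ) ^ l := by exact_mod_cast h1
  have h3 : (t : ℝ) ≤ 2 * (N : ℝ) ^ ((l : ℝ) / k) := by
    have h4 : ((t : ℝ) ^ k) ^ (1 / (k : ℝ)) = t := by
      rw [← Real.rpow_natCast, ← Real.rpow_mul (Nat.cast_nonneg t),
        mul_one_div_cancel hkR.ne', Real.rpow_one]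
    have h5 : ((2 : ℝ) ^ k * (N : ℝ) ^ l) ^ (1 / (k : ℝ)) = 2 * (N : ℝ) ^ ((l : ℝ) / k) := by
      rw [Real.mul_rpow (by positivity) (by positivity), ← Real.rpow_natCast,
        ← Real.rpow_mul (by norm_num), mul_one_div_cancel hkR.ne', Real.rpow_one,
        ← Real.rpow_natCast, ← Real.rpow_mul hN0.le]
      congr 2
      ring
    rw [← h4, ← h5]
    exact Real.rpow_le_rpow (by positivity) h2 (by positivity)
  refine h3.trans (mul_le_mul_of_nonneg_left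
    (Real.rpow_le_rpow_of_exponent_le hNR ?_) (by norm_num))
  have h6 : (k : ℝ) ≤ Z := by exact_mod_cast hkZ
  have h7 : 1 / (Z : ℝ) ≤ 1 / (k : ℝ) := one_div_le_one_div_of_le hkR h6
  have h8 : (l : ℝ) + 1 ≤ k := by exact_mod_cast hlk
  have h9 : (l : ℝ) / k ≤ 1 - 1 / (k : ℝ) := by
    rw [div_le_iff₀ hkR, sub_mul, one_mul, one_div_mul_cancel hkR.ne']
    linarith
  linarith

/-- small exponents -/
theorem small_count (Z N c : ℕ) (hN : 1 ≤ N) (hc : c ≤ N) :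
    {v : ℕ | v ∈ Set.Icc 1 N ∧ ∃ t m n : ℕ, 1 ≤ m ∧ 1 ≤ n ∧ 1 ≤ t ∧
      ((n < m ∧ m ≤ Z ∧ v ^ n = t ^ m + c) ∨ (m < n ∧ n ≤ Z ∧ t ^ n = v ^ m + c))}.Finite ∧
    (({v : ℕ | v ∈ Set.Icc 1 N ∧ ∃ t m n : ℕ, 1 ≤ m ∧ 1 ≤ n ∧ 1 ≤ t ∧
      ((n < m ∧ m ≤ Z ∧ v ^ n = t ^ m + c) ∨ (m < n ∧ n ≤ Z ∧ t ^ n = v ^ m + c))}.ncard : ℕ) : ℝ) ≤
      4 * ((Z : ℝ) + 1) ^ 2 * (N : ℝ) ^ (1 - 1 / (Z : ℝ)) := by
  classical
  have hNR : (1 : ℝ) ≤ N := by exact_mod_cast hN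
  have hN0 : (0 : ℝ) < N := by linarith
  set M : ℕ := ⌊2 * (N : ℝ) ^ (1 - 1 / (Z : ℝ))⌋₊ with hM
  have hMle : (M : ℝ) ≤ 2 * (N : ℝ) ^ (1 - 1 / (Z : ℝ)) := Nat.floor_le (by positivity)
  set J : Finset (ℕ × ℕ × ℕ × Bool) := Finset.range (Z + 1) ×ˢ Finset.range (Z + 1) ×ˢ
    Finset.Icc 1 M ×ˢ Finset.univ with hJ
  have hJc : J.card = (Z + 1) * ((Z + 1) * (M * 2)) := by
    rw [hJ]
    simp only [Finset.card_product, Finset.card_range, Nat.card_Icc, Nat.add_sub_cancel,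
      Finset.card_univ, Fintype.card_bool]
  have h := SU.coverG (K := 1) J (fun j => {v : ℕ | 0 < j.1 ∧ 0 < j.2.1 ∧
    (if j.2.2.2 then v ^ j.2.1 = j.2.2.1 ^ j.1 + c else
      j.2.2.1 ^ j.2.1 = v ^ j.1 + c)}) (by
    rintro ⟨m, n, t, s⟩ _
    have hsub : {v : ℕ | 0 < m ∧ 0 < n ∧ (if s then v ^ n = t ^ m + c else
        t ^ n = v ^ m + c)}.Subsingleton := by
      rintro v ⟨hm, hn, h1⟩ v' ⟨_, _, h2⟩
      cases s
      · simp only [Bool.false_eq_true, if_false] at h1 h2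
        exact Nat.pow_left_injective hm.ne' (by show v ^ m = v' ^ m; omega)
      · simp only [if_true] at h1 h2
        exact Nat.pow_left_injective hn.ne' (by show v ^ n = v' ^ n; omega)
    exact ⟨hsub.finite, (Set.ncard_le_one hsub.finite).mpr fun a ha b hb => hsub ha hb⟩)
    {v : ℕ | v ∈ Set.Icc 1 N ∧ ∃ t m n : ℕ, 1 ≤ m ∧ 1 ≤ n ∧ 1 ≤ t ∧
      ((n < m ∧ m ≤ Z ∧ v ^ n = t ^ m + c) ∨ (m < n ∧ n ≤ Z ∧ t ^ n = v ^ m + c))} (by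
    rintro v ⟨⟨hv1, hvN⟩, t, m, n, hm, hn, ht, h⟩
    rcases h with ⟨hnm, hmZ, h⟩ | ⟨hmn, hnZ, h⟩
    · have h1 : v ^ n ≤ N ^ n := Nat.pow_le_pow_left hvN n
      have htM : t ≤ M := Nat.le_floor (root_bound hN hnm hmZ (by omega))
      refine ⟨(m, n, t, true), ?_, (by show 0 < m; omega), (by show 0 < n; omega), ?_⟩
      · rw [hJ]
        simp only [Finset.mem_product, Finset.mem_range, Finset.mem_Icc, Finset.mem_univ, and_true]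
        omega
      · simpa using h
    · have h1 : v ^ m ≤ N ^ m := Nat.pow_le_pow_left hvN m
      have h2 : N ≤ N ^ m := Nat.le_self_pow (by omega) N
      have htM : t ≤ M := Nat.le_floor (root_bound hN hmn hnZ (by omega))
      refine ⟨(m, n, t, false), ?_, (by show 0 < m; omega), (by show 0 < n; omega), ?_⟩
      · rw [hJ]
        simp only [Finset.mem_product, Finset.mem_range, Finset.mem_Icc, Finset.mem_univ, and_true]
        omega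
      · simpa using h)
  refine ⟨h.1, ?_⟩
  have h2 := h.2
  rw [hJc, mul_one] at h2
  have h3 : (({v : ℕ | v ∈ Set.Icc 1 N ∧ ∃ t m n : ℕ, 1 ≤ m ∧ 1 ≤ n ∧ 1 ≤ t ∧
      ((n < m ∧ m ≤ Z ∧ v ^ n = t ^ m + c) ∨ (m < n ∧ n ≤ Z ∧ t ^ n = v ^ m + c))}.ncard : ℕ) :
      ℝ) ≤ ((Z : ℝ) + 1) * (((Z : ℝ) + 1) * (M * 2)) := by exact_mod_cast h2
  calc _ ≤ ((Z : ℝ) + 1) * (((Z : ℝ) + 1) * (M * 2)) := h3
    _ ≤ ((Z : ℝ) + 1) * (((Z : ℝ) + 1) * ((2 * (N : ℝ) ^ (1 - 1 / (Z : ℝ))) * 2)) := by gcongr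
    _ = _ := by ring

/-- For every `ε > 0` there is `κ > 0` such that for all large `N` there is a set `T` of at most
`ε N` integers of `[1, N]` with the following property: for every `c` with `1 ≤ c ≤ N` there are at
most `N ^ (1 - κ)` integers `v` of `[1, N]` outside `T` which carry the smaller exponent in an
admissible solution of `x ^ n - y ^ m = c` with coprime `x`, `y`. -/
theorem result (ε : ℝ) (hε : 0 < ε) : ∃ κ : ℝ, 0 < κ ∧ ∃ N₀ : ℕ, ∀ N : ℕ, N₀ ≤ N →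
    ∃ T : Set ℕ, T ⊆ Set.Icc 1 N ∧ (T.ncard : ℝ) ≤ ε * N ∧ ∀ c : ℕ, 1 ≤ c → c ≤ N →
      (({v : ℕ | v ∈ Set.Icc 1 N ∧ v ∉ T ∧ Occur c v}.ncard : ℕ) : ℝ) ≤ (N : ℝ) ^ (1 - κ) := by
  classical
  set δ : ℝ := min ε (1 / 2) with hδ
  have hδ0 : 0 < δ := lt_min hε (by norm_num)
  have hδ1 : δ < 1 := lt_of_le_of_lt (min_le_right _ _) (by norm_num)
  obtain ⟨Z₀, L, hcore⟩ := core 1 le_rfl hδ0 hδ1
  set Z : ℕ := max Z₀ 2 with hZ
  have hZ2 : 2 ≤ Z := le_max_right _ _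
  have hZ0 : Z₀ ≤ Z := le_max_left _ _
  have hZR : (2 : ℝ) ≤ Z := by exact_mod_cast hZ2
  have hZinv : 1 / (Z : ℝ) ≤ 1 / 2 := one_div_le_one_div_of_le (by norm_num) hZR
  have hZpos : 0 < 1 / (Z : ℝ) := by positivity
  have ht : Tendsto (fun N : ℕ => (N : ℝ) ^ (1 / (2 * (Z : ℝ)))) atTop atTop :=
    (tendsto_rpow_atTop (by positivity)).comp tendsto_natCast_atTop_atTop
  obtain ⟨N₁, hN₁⟩ := eventually_atTop.mp (ht.eventually_ge_atTop (4 * ((Z : ℝ) + 1) ^ 2 + 1))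
  refine ⟨1 / (2 * (Z : ℝ)), by positivity, max L (max N₁ 1), fun N hN => ?_⟩
  simp only [max_le_iff] at hN
  obtain ⟨g1, g2, g3⟩ := hN
  have hNR : (1 : ℝ) ≤ N := by exact_mod_cast g3
  have hN0 : (0 : ℝ) < N := by linarith
  obtain ⟨T, hT1, hT2, hT3⟩ := hcore N N 0 g1 (by omega) (by rw [pow_one])
  rw [zero_add] at hT1 hT3
  have hIoc : Set.Ioc 0 N = Set.Icc 1 N := by
    ext v
    simp only [Set.mem_Ioc, Set.mem_Icc]
    omega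
  rw [hIoc] at hT1 hT3
  refine ⟨T, hT1, hT2.trans ?_, fun c hc0 hcN => ?_⟩
  · exact mul_le_mul_of_nonneg_right (min_le_left _ _) hN0.le
  obtain ⟨hf, hs⟩ := small_count Z N c g3 hcN
  have hb := hT3 c (by omega) hcN
  set A1 : Set ℕ := {v : ℕ | v ∈ Set.Icc 1 N ∧ ∃ t m n : ℕ, 1 ≤ m ∧ 1 ≤ n ∧ 1 ≤ t ∧
      ((n < m ∧ m ≤ Z ∧ v ^ n = t ^ m + c) ∨ (m < n ∧ n ≤ Z ∧ t ^ n = v ^ m + c))} with hA1
  set A2 : Set ℕ := {B : ℕ | B ∈ Set.Icc 1 N ∧ B ∉ T ∧ Nat.Coprime c B ∧ Sol Z₀ c B} with hA2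
  have hA2f : A2.Finite := (Set.finite_Icc 1 N).subset (fun B hB => hB.1)
  have hcop : ∀ x y m n : ℕ, 2 ≤ m → 2 ≤ n → Nat.Coprime x y → x ^ n = y ^ m + c →
      Nat.Coprime c x ∧ Nat.Coprime c y := by
    intro x y m n hm hn hxy heq
    have h1 : Nat.Coprime (x ^ n) (y ^ m) := Nat.Coprime.pow n m hxy
    have h2 : Nat.Coprime (y ^ m) c := by
      rw [heq] at h1
      have h3 := h1.symm
      rwa [Nat.coprime_self_add_right] at h3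
    have h3 : Nat.Coprime c (x ^ n) := by
      rw [heq, Nat.coprime_add_self_right]
      exact h2.symm
    exact ⟨(Nat.coprime_pow_right_iff (by omega) _ _).mp h3,
      (Nat.coprime_pow_right_iff (by omega) _ _).mp h2.symm⟩
  have hsub : {v : ℕ | v ∈ Set.Icc 1 N ∧ v ∉ T ∧ Occur c v} ⊆ A1 ∪ A2 := by
    rintro v ⟨hv, hvT, x, y, m, n, hx, hy, hm, hn, hxy, heq, h⟩
    obtain ⟨hcx, hcy⟩ := hcop x y m n hm hn hxy heq
    rcases h with ⟨hnm, rfl⟩ | ⟨hmn, rfl⟩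
    · by_cases hmZ : m ≤ Z
      · exact Or.inl ⟨hv, y, m, n, by omega, by omega, by omega, Or.inl ⟨hnm, hmZ, heq⟩⟩
      · refine Or.inr ⟨hv, hvT, hcx, 1, n, m, y, by omega, by omega, by omega, by omega,
          Or.inr (Or.inl ?_)⟩
        rw [pow_one, heq, add_comm]
    · by_cases hnZ : n ≤ Z
      · exact Or.inl ⟨hv, x, m, n, by omega, by omega, by omega, Or.inr ⟨hmn, hnZ, heq⟩⟩
      · refine Or.inr ⟨hv, hvT, hcy, 1, m, n, x, by omega, by omega, by omega, by omega,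
          Or.inl ?_⟩
        rw [pow_one, heq, add_comm]
  have h1 := (Set.ncard_le_ncard hsub (hf.union hA2f)).trans (Set.ncard_union_le A1 A2)
  have h2 : (({v : ℕ | v ∈ Set.Icc 1 N ∧ v ∉ T ∧ Occur c v}.ncard : ℕ) : ℝ) ≤
      A1.ncard + A2.ncard := by exact_mod_cast h1
  have h3 : (N : ℝ) ^ δ ≤ (N : ℝ) ^ (1 - 1 / (Z : ℝ)) := by
    apply Real.rpow_le_rpow_of_exponent_le hNR
    have : δ ≤ 1 / 2 := min_le_right _ _
    linarith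
  have h4 := hN₁ N g2
  calc (({v : ℕ | v ∈ Set.Icc 1 N ∧ v ∉ T ∧ Occur c v}.ncard : ℕ) : ℝ) ≤ _ := h2
    _ ≤ 4 * ((Z : ℝ) + 1) ^ 2 * (N : ℝ) ^ (1 - 1 / (Z : ℝ)) + (N : ℝ) ^ (1 - 1 / (Z : ℝ)) := by
        linarith
    _ = (4 * ((Z : ℝ) + 1) ^ 2 + 1) * (N : ℝ) ^ (1 - 1 / (Z : ℝ)) := by ring
    _ ≤ (N : ℝ) ^ (1 / (2 * (Z : ℝ))) * (N : ℝ) ^ (1 - 1 / (Z : ℝ)) := by gcongr
    _ = (N : ℝ) ^ (1 - 1 / (2 * (Z : ℝ))) := by
        rw [← Real.rpow_add hN0]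
        congr 1
        field_simp
        ring

end Pool.Agent.Results.MP_40586e_nt.LargerBase
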